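import Pool.Agent.Lib_helper52.LQ.Defs
import Pool.Agent.Lib_helper53.LQ.N1
import Pool.Agent.Lib_helper23.EPS.F3
import Pool.Agent.Lib_helper52.EPS.P.F5

set_option autoImplicit false

namespace Pool.Agent.LQ

open MeasureTheory ENNReal Set Filter Topology Pool.Agent.EPS Pool.Agent.YG

variable {d : ℕ}

/-- `submod` of `Lib_helper52.EPS.P.F5` and `MI_val`:
`h(U) + h(V) ≥ h(W) + h(Z)`, `h(U) ≥ h(X)`, `h(V) ≥ h(Y)` -/
theorem ss_nonneg (θ : ℝ) (h0 : 0 < θ) (h1 : θ < 1) (α β γ : Measure (Eu d)) (hα : Nc α)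
    (hβ : Nc β) (hγ : Nc γ) : 0 ≤ SS θ α β γ := by
  have iα : IsProbabilityMeasure α := hα.1
  have iβ : IsProbabilityMeasure β := hβ.1
  have iγ : IsProbabilityMeasure γ := hγ.1
  have fα := nc_fin hα
  have fβ := nc_fin hβ
  have fγ := nc_fin hγ
  have fU := nc_fin (nc_conv hα hγ)
  have fV := nc_fin (nc_conv hβ hγ)
  have e1 := (submod α β γ fγ fU fV).2
  have hU : FinE (γ.conv α) := nc_fin (nc_conv hγ hα)
  have hV : FinE (γ.conv β) := nc_fin (nc_conv hγ hβ)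
  have e2 := (MI_val γ α fα hU).2
  have e3 := (MI_val γ β fβ hV).2
  rw [Measure.conv_comm γ α] at e2
  rw [Measure.conv_comm γ β] at e3
  have e4 : (α.conv β).conv γ = α.conv (β.conv γ) := Measure.conv_assoc α β γ
  unfold SS
  rw [e4]
  have h2 : 0 < 1 - θ := by linarith
  nlinarith

theorem v0_norm {x : Eu d} {L : ℝ} (h : ∀ j, |x j| ≤ L) :
    ‖x‖ ≤ Real.sqrt (∑ _j : Fin d, L ^ 2) := by
  rw [EuclideanSpace.norm_eq]
  apply Real.sqrt_le_sqrt
  apply Finset.sum_le_sum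
  intro j _
  rw [Real.norm_eq_abs]
  exact pow_le_pow_left₀ (abs_nonneg _) (h j) 2

/-- the uniform law on the cube -/
theorem sp_ex (L : ℝ) (hL : 0 < L) : ∃ γ : Measure (Eu d), Sp L γ := by
  set S : Set (Eu d) := {x | ∀ j, |x j| ≤ L} with hS
  have hcl : IsClosed S := by
    have : S = ⋂ j, {x : Eu d | |x j| ≤ L} := by
      ext x
      simp [hS]
    rw [this]
    refine isClosed_iInter (fun j => ?_)
    exact isClosed_le (by fun_prop) continuous_const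
  have hm : MeasurableSet S := hcl.measurableSet
  have hbd : S ⊆ Metric.closedBall (0 : Eu d) (Real.sqrt (∑ _j : Fin d, L ^ 2)) := by
    intro x hx
    rw [mem_closedBall_zero_iff]
    exact v0_norm hx
  have hfin : volume S ≠ ⊤ := by
    refine ne_top_of_le_ne_top ?_ (measure_mono hbd)
    exact measure_closedBall_lt_top.ne
  have hpos : volume S ≠ 0 := by
    have hsub : Metric.ball (0 : Eu d) L ⊆ S := by
      intro x hx j
      rw [mem_ball_zero_iff] at hx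
      have : ‖x j‖ ≤ ‖x‖ := PiLp.norm_apply_le x j
      rw [← Real.norm_eq_abs]
      linarith
    have h0 : 0 < volume (Metric.ball (0 : Eu d) L) := Metric.measure_ball_pos _ _ hL
    exact (lt_of_lt_of_le h0 (measure_mono hsub)).ne'
  have hin : (volume S)⁻¹ ≠ ⊤ := ENNReal.inv_ne_top.2 hpos
  refine ⟨(volume S)⁻¹ • volume.restrict S, ⟨?_, ?_, ?_⟩, ?_⟩
  · refine ⟨?_⟩
    rw [Measure.smul_apply, Measure.restrict_apply_univ, smul_eq_mul]
    exact ENNReal.inv_mul_cancel hpos hfin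
  · refine ⟨Real.sqrt (∑ _j : Fin d, L ^ 2), ?_⟩
    refine Measure.ae_smul_measure ?_ _
    rw [ae_restrict_iff' hm]
    exact Eventually.of_forall (fun x hx => v0_norm hx)
  · refine ⟨(volume S)⁻¹.toNNReal, ?_⟩
    rw [ENNReal.coe_toNNReal hin]
    intro A
    rw [Measure.smul_apply, Measure.smul_apply, smul_eq_mul, smul_eq_mul]
    exact mul_le_mul_right (Measure.restrict_apply_le S A) _
  · refine Measure.ae_smul_measure ?_ _
    rw [ae_restrict_iff' hm]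
    exact Eventually.of_forall (fun x hx => hx)

theorem v0_bdd (θ L : ℝ) (h0 : 0 < θ) (h1 : θ < 1) (α β : Measure (Eu d)) (hα : Nc α)
    (hβ : Nc β) : BddBelow {s : ℝ | ∃ γ : Measure (Eu d), Sp L γ ∧ s = SS θ α β γ} := by
  refine ⟨0, ?_⟩
  rintro s ⟨γ, hγ, rfl⟩
  exact ss_nonneg θ h0 h1 α β γ hα hβ hγ.1

theorem vv_le (θ L : ℝ) (h0 : 0 < θ) (h1 : θ < 1) (α β γ : Measure (Eu d)) (hα : Nc α)
    (hβ : Nc β) (hγ : Sp L γ) : VV θ L α β ≤ SS θ α β γ := by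
  unfold VV
  exact csInf_le (v0_bdd θ L h0 h1 α β hα hβ) ⟨γ, hγ, rfl⟩

theorem vv_near (θ L η : ℝ) (h0 : 0 < θ) (h1 : θ < 1) (hL : 0 < L) (hη : 0 < η)
    (α β : Measure (Eu d)) (hα : Nc α) (hβ : Nc β) :
    0 ≤ VV θ L α β ∧ ∃ γ : Measure (Eu d), Sp L γ ∧ SS θ α β γ < VV θ L α β + η := by
  obtain ⟨γ0, hγ0⟩ := sp_ex (d := d) L hL
  have hne : {s : ℝ | ∃ γ : Measure (Eu d), Sp L γ ∧ s = SS θ α β γ}.Nonempty :=
    ⟨_, γ0, hγ0, rfl⟩
  constructor
  · unfold VV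
    refine le_csInf hne ?_
    rintro s ⟨γ, hγ, rfl⟩
    exact ss_nonneg θ h0 h1 α β γ hα hβ hγ.1
  · have hlt : VV θ L α β < VV θ L α β + η := by linarith
    unfold VV at hlt
    obtain ⟨s, ⟨γ, hγ, rfl⟩, hs⟩ := exists_lt_of_csInf_lt hne hlt
    exact ⟨γ, hγ, hs⟩

end Pool.Agent.LQ
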