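import Pool.Agent.Lib_helper52.LQ.Defs
import Pool.Agent.Lib_helper53.LQ.N1
import Pool.Agent.Lib_helper49.LQ.N2
import Pool.Agent.Lib_helper49.LQ.N3
import Pool.Agent.Lib_helper59.LQ.E2
import Pool.Agent.Lib_helper90.LQ.R1
import Pool.Agent.Lib_helper16.LQ.R2
import Pool.Agent.Lib_helper86.LQ.R3

set_option autoImplicit false

namespace Pool.Agent.LQ

open MeasureTheory ENNReal Set Filter Topology Pool.Agent.EPS Pool.Agent.YG

variable {d : ℕ}

/-- the tilt with the minus sign -/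
theorem ey_neg (α γ : Measure (Eu d)) [IsProbabilityMeasure α] [IsProbabilityMeasure γ]
    (k κ : Eu d → ℝ) (hk : Measurable k) (h : Rg α γ k κ) (M s : ℝ) (hM : ∀ z, |k z| ≤ M)
    (hs : |s| * M ≤ 1) : α.conv (tl γ (fun z => 1 - s * k z)) =
      tl (α.conv γ) (fun u => 1 - s * κ u) := by
  have h1 := conv_tl α γ k κ hk h M (-s) hM (by rw [abs_neg]; exact hs)
  have e1 : (fun z => 1 + -s * k z) = (fun z => 1 - s * k z) := by
    funext z
    ring
  have e2 : (fun u => 1 + -s * κ u) = (fun u => 1 - s * κ u) := by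
    funext u
    ring
  rw [e1, e2] at h1
  exact h1

/-- the same for a tilt of `β`; `β.conv γ = γ.conv β`, `(α.conv β).conv γ = (α.conv γ).conv β` -/
theorem e_y (θ : ℝ) (h0 : 0 < θ) (h1 : θ < 1) (α β γ : Measure (Eu d)) (hα : Nc α) (hβ : Nc β)
    (hγ : Nc γ) (l lV lW : Eu d → ℝ) (hl : Measurable l) (M s : ℝ) (hM : ∀ y, |l y| ≤ M)
    (hl0 : ∫ y, l y ∂β = 0) (hV : Rg γ β l lV) (hW : Rg (α.conv γ) β l lW) (hs : 0 < s)
    (hsM : s * M ≤ 1 / 2) :
    SS θ α (tl β (fun y => 1 + s * l y)) γ + SS θ α (tl β (fun y => 1 - s * l y)) γ ≤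
      2 * SS θ α β γ + s ^ 2 * (((∫ y, l y ^ 2 ∂β) - ∫ v, lV v ^ 2 ∂(γ.conv β)) -
        θ * ((∫ y, l y ^ 2 ∂β) - ∫ w, lW w ^ 2 ∂((α.conv γ).conv β))) + s ^ 4 * M ^ 4 := by
  have iα : IsProbabilityMeasure α := hα.1
  have iβ : IsProbabilityMeasure β := hβ.1
  have iγ : IsProbabilityMeasure γ := hγ.1
  have hU := nc_conv hα hγ
  have hVc := nc_conv hγ hβ
  have hWc := nc_conv hU hβ
  have iU : IsProbabilityMeasure (α.conv γ) := hU.1
  have iV : IsProbabilityMeasure (γ.conv β) := hVc.1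
  have iW : IsProbabilityMeasure ((α.conv γ).conv β) := hWc.1
  obtain ⟨pa, pb, pc, pd, pe, pf⟩ := tl_pm β l hl M s hM hs.le hsM hl0
  have mp : Measurable (fun y => 1 + s * l y) := (hl.const_mul s).const_add 1
  have mm : Measurable (fun y => 1 - s * l y) := (hl.const_mul s).const_sub 1
  have np : Nc (tl β (fun y => 1 + s * l y)) := tl_nc hβ _ mp pa 2 pc pe
  have nm : Nc (tl β (fun y => 1 - s * l y)) := tl_nc hβ _ mm pb 2 pd pf
  have ip : IsProbabilityMeasure (tl β (fun y => 1 + s * l y)) := np.1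
  have im : IsProbabilityMeasure (tl β (fun y => 1 - s * l y)) := nm.1
  have hs1 : |s| * M ≤ 1 := by
    rw [abs_of_pos hs]
    linarith
  have mean1 := rg_mean γ β l lV hV
  have mean2 := rg_mean (α.conv γ) β l lW hW
  rw [hl0] at mean1 mean2
  have t1 := (ent_pm (nc_fin hVc) lV hV.meas M s (hV.bd M hM) hs.le hsM mean1).1
  have t2 := (ent_pm (nc_fin hWc) lW hW.meas M s (hW.bd M hM) hs.le hsM mean2).2
  have t3 := (ent_pm (nc_fin hβ) l hl M s hM hs.le hsM hl0).2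
  have c1 := conv_tl γ β l lV hl hV M s hM hs1
  have c2 := ey_neg γ β l lV hl hV M s hM hs1
  have c3 := conv_tl (α.conv γ) β l lW hl hW M s hM hs1
  have c4 := ey_neg (α.conv γ) β l lW hl hW M s hM hs1
  rw [← c1, ← c2] at t1
  rw [← c3, ← c4] at t2
  have sw : ∀ ν : Measure (Eu d), IsProbabilityMeasure ν → (α.conv ν).conv γ =
      (α.conv γ).conv ν := by
    intro ν hν
    rw [Measure.conv_assoc α ν γ, Measure.conv_comm ν γ, ← Measure.conv_assoc α γ ν]
  have s0 := sw β iβ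
  have s1 := sw _ ip
  have s2 := sw _ im
  unfold SS
  rw [s0, s1, s2, Measure.conv_comm β γ, Measure.conv_comm (tl β (fun y => 1 + s * l y)) γ,
    Measure.conv_comm (tl β (fun y => 1 - s * l y)) γ]
  have q0 := mul_le_mul_of_nonneg_left t2 h0.le
  have q1 := mul_le_mul_of_nonneg_left t3 (by linarith : (0 : ℝ) ≤ 1 - θ)
  nlinarith [t1, q0, q1]

end Pool.Agent.LQ
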